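import Mathlib

/-!
# A symmetric `3 × 3` matrix with a good rank-one point is anisotropic, in any number of variables
(after `Pool.Agent.Y779.C3.AN`)
-/

set_option autoImplicit false

namespace Pool.Agent.Y363.LI

open MvPolynomial

noncomputable section

variable {r : ℕ}

/-- a linear form -/
def LL (c : Fin r → ℂ) : MvPolynomial (Fin r) ℂ := ∑ l, C (c l) * X l

theorem LL_lin (c : Fin r → ℂ) : LL c = ∑ l, C (c l) * X l := rfl

theorem LL_add (c c' : Fin r → ℂ) : LL (fun l => c l + c' l) = LL c + LL c' := by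
  simp only [LL, C_add, add_mul, Finset.sum_add_distrib]

theorem LL_smul (a : ℂ) (c : Fin r → ℂ) : LL (fun l => a * c l) = C a * LL c := by
  simp only [LL, C_mul, Finset.mul_sum, mul_assoc]

theorem pd_LL (c : Fin r → ℂ) (l : Fin r) : eval 0 (pderiv l (LL c)) = c l := by
  classical
  rw [LL, map_sum, map_sum, Finset.sum_eq_single l]
  · simp
  · intro j _ hj
    simp [pderiv_X, hj]
  · intro h
    exact absurd (Finset.mem_univ l) h

theorem ev_LL (c : Fin r → ℂ) : eval 0 (LL c) = 0 := by
  simp [LL]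

theorem LL_ne (c : Fin r → ℂ) (hc : c ≠ 0) : LL c ≠ 0 := by
  intro h
  apply hc
  ext l
  rw [← pd_LL c l, h]
  simp

theorem LL_hom (c : Fin r → ℂ) : (LL c).IsHomogeneous 1 :=
  IsHomogeneous.sum _ _ _ fun _ _ => isHomogeneous_C_mul_X _ _

theorem LL_prime (c : Fin r → ℂ) (hc : c ≠ 0) : Prime (LL c) := by
  rw [← irreducible_iff_prime]
  refine irreducible_of_totalDegree_eq_one ((LL_hom c).totalDegree (LL_ne c hc)) ?_
  intro x hx
  refine isUnit_iff_ne_zero.2 ?_
  rintro rfl
  apply LL_ne c hc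
  ext m
  rw [coeff_zero]
  exact zero_dvd_iff.1 (hx m)

theorem core (f g h : Fin r → ℂ)
    (H : ∀ x y : ℂ, (∀ l, x ^ 2 * f l + 2 * x * y * g l + y ^ 2 * h l = 0) → x = 0 ∧ y = 0)
    (p q : MvPolynomial (Fin r) ℂ)
    (hpq : LL f * p ^ 2 + 2 * LL g * p * q + LL h * q ^ 2 = 0) : p = 0 ∧ q = 0 := by
  have hf : f ≠ 0 := by
    rintro rfl
    have := (H 1 0 (fun l => by simp)).1
    exact one_ne_zero this
  have hF := LL_prime f hf
  by_cases hq : q = 0
  · subst hq
    have h0 : LL f * p ^ 2 = 0 := by linear_combination hpq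
    rcases mul_eq_zero.1 h0 with h1 | h1
    · exact absurd h1 hF.ne_zero
    · exact ⟨(pow_eq_zero_iff two_ne_zero).1 h1, rfl⟩
  · exfalso
    have h1 : (LL f * p + LL g * q) ^ 2 = (LL g ^ 2 - LL f * LL h) * q ^ 2 := by
      linear_combination LL f * hpq
    have h2 : q ^ 2 ∣ (LL f * p + LL g * q) ^ 2 := by
      rw [h1]
      exact dvd_mul_left _ _
    obtain ⟨ℓ, hℓ⟩ := (UniqueFactorizationMonoid.pow_dvd_pow_iff_dvd two_ne_zero).1 h2
    have h3 : ℓ ^ 2 = LL g ^ 2 - LL f * LL h := by
      rw [hℓ] at h1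
      have h0 : q ^ 2 * (ℓ ^ 2 - (LL g ^ 2 - LL f * LL h)) = 0 := by linear_combination h1
      rcases mul_eq_zero.1 h0 with h4 | h4
      · exact absurd ((pow_eq_zero_iff two_ne_zero).1 h4) hq
      · exact sub_eq_zero.1 h4
    have h4 : LL f ∣ (LL g - ℓ) * (LL g + ℓ) := ⟨LL h, by linear_combination -h3⟩
    have key : ∀ m : MvPolynomial (Fin r) ℂ, m ^ 2 = LL g ^ 2 - LL f * LL h →
        ¬ LL f ∣ LL g - m := by
      rintro m hm ⟨α, hα⟩
      have hm' : m = LL g - LL f * α := by linear_combination -hα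
      have h5 : LL f * (LL h - α * (2 * LL g - LL f * α)) = 0 := by
        rw [hm'] at hm
        linear_combination hm
      have h6 : LL h = α * (2 * LL g - LL f * α) := by
        rcases mul_eq_zero.1 h5 with h7 | h7
        · exact absurd h7 hF.ne_zero
        · exact sub_eq_zero.1 h7
      have h7 : ∀ l, h l = 2 * (eval 0 α) * g l - (eval 0 α) ^ 2 * f l := by
        intro l
        have h8 := congrArg (fun P => eval 0 (pderiv l P)) h6
        have h2' : pderiv l (2 : MvPolynomial (Fin r) ℂ) = 0 := by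
          have : (2 : MvPolynomial (Fin r) ℂ) = C 2 := (map_ofNat C 2).symm
          rw [this, pderiv_C]
        simp only [Derivation.leibniz, map_sub, map_add, smul_eq_mul, map_mul, pd_LL, ev_LL,
          h2', map_zero, map_ofNat] at h8
        rw [h8]
        ring
      have h9 := H (-(eval 0 α)) 1 (fun l => by rw [h7]; ring)
      exact one_ne_zero h9.2
    rcases hF.dvd_or_dvd h4 with h5 | h5
    · exact key ℓ h3 h5
    · exact key (-ℓ) (by rw [neg_sq]; exact h3) (by rwa [sub_neg_eq_add])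

/-- the expansion at `η` -/
def phi (η : Fin r → ℂ) : MvPolynomial (Fin r) ℂ →ₐ[ℂ] Polynomial (MvPolynomial (Fin r) ℂ) :=
  aeval (fun i => Polynomial.C (C (η i)) + Polynomial.C (X i) * Polynomial.X)

theorem phi_C (η : Fin r → ℂ) (a : ℂ) : phi η (C a) = Polynomial.C (C a) := by
  rw [phi, aeval_C]
  rfl

theorem phi_X (η : Fin r → ℂ) (i : Fin r) :
    phi η (X i) = Polynomial.C (C (η i)) + Polynomial.C (X i) * Polynomial.X := by
  rw [phi, aeval_X]

theorem phi_inj (η : Fin r → ℂ) {P : MvPolynomial (Fin r) ℂ} (h : phi η P = 0) : P = 0 := by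
  let θ : MvPolynomial (Fin r) ℂ →ₐ[ℂ] MvPolynomial (Fin r) ℂ := aeval fun i => X i - C (η i)
  let τ : Polynomial (MvPolynomial (Fin r) ℂ) →ₐ[ℂ] MvPolynomial (Fin r) ℂ :=
    (Polynomial.aeval (1 : MvPolynomial (Fin r) ℂ)).restrictScalars ℂ
  have e : θ.comp (τ.comp (phi η)) = AlgHom.id ℂ _ := by
    apply MvPolynomial.algHom_ext
    intro i
    have h1 : τ (phi η (X i)) = C (η i) + X i := by
      rw [phi_X]
      show Polynomial.aeval (1 : MvPolynomial (Fin r) ℂ) _ = _
      simp
    show θ (τ (phi η (X i))) = X i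
    rw [h1, map_add]
    show aeval _ (C (η i)) + aeval _ (X i) = _
    rw [aeval_C, aeval_X]
    show C (η i) + (X i - C (η i)) = X i
    ring
  have h2 := DFunLike.congr_fun e P
  have h3 : θ (τ (phi η P)) = P := h2
  rw [← h3, h, map_zero, map_zero]

theorem coeff0 (η : Fin r → ℂ) (P : MvPolynomial (Fin r) ℂ) :
    (phi η P).coeff 0 = C (eval η P) := by
  induction P using MvPolynomial.induction_on with
  | C a => rw [phi_C, Polynomial.coeff_C_zero, eval_C]
  | add p q hp hq => rw [map_add, Polynomial.coeff_add, hp, hq, map_add, C_add]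
  | mul_X p i hp =>
    rw [map_mul, Polynomial.mul_coeff_zero, hp, phi_X, map_mul, eval_X, C_mul]
    congr 1
    simp

theorem coeff1 (η : Fin r → ℂ) (P : MvPolynomial (Fin r) ℂ) :
    (phi η P).coeff 1 = LL fun l => eval η (pderiv l P) := by
  classical
  induction P using MvPolynomial.induction_on with
  | C a =>
    rw [phi_C, Polynomial.coeff_C_succ]
    simp [LL]
  | add p q hp hq =>
    rw [map_add, Polynomial.coeff_add, hp, hq, LL, LL, LL, ← Finset.sum_add_distrib]
    refine Finset.sum_congr rfl fun l _ => ?_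
    rw [map_add, map_add, C_add]
    ring
  | mul_X p i hp =>
    rw [map_mul, Polynomial.mul_coeff_one, hp, coeff0, phi_X]
    have e0 : (Polynomial.C (C (η i)) + Polynomial.C (X i) * Polynomial.X :
      Polynomial (MvPolynomial (Fin r) ℂ)).coeff 0 = C (η i) := by simp
    have e1 : (Polynomial.C (C (η i)) + Polynomial.C (X i) * Polynomial.X :
      Polynomial (MvPolynomial (Fin r) ℂ)).coeff 1 = X i := by
      simp [Polynomial.coeff_C]
    rw [e0, e1]
    have e2 : ∀ l, eval η (pderiv l (p * X i)) =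
        η i * eval η (pderiv l p) + if l = i then eval η p else 0 := by
      intro l
      rw [Derivation.leibniz, pderiv_X, map_add, smul_eq_mul, smul_eq_mul, map_mul, map_mul,
        eval_X]
      by_cases hl : l = i
      · subst hl
        simp
        ring
      · rw [if_neg hl, Pi.single_apply, if_neg (fun h => hl h.symm)]
        simp
    simp only [e2]
    rw [LL, LL]
    have e3 : ∀ l, C (η i * eval η (pderiv l p) + if l = i then eval η p else 0) *
        (X l : MvPolynomial (Fin r) ℂ) = C (η i) * (C (eval η (pderiv l p)) * X l) +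
        if l = i then C (eval η p) * X l else 0 := by
      intro l
      split_ifs
      · rw [C_add, C_mul]; ring
      · rw [add_zero, C_mul]; ring
    simp only [e3]
    rw [Finset.sum_add_distrib, ← Finset.mul_sum, Finset.sum_ite_eq' Finset.univ i]
    simp
    ring

theorem extract {R : Type} [CommRing R] (P : Fin 3 → Polynomial R) (hP : P ≠ 0) :
    ∃ (d : ℕ) (Q : Fin 3 → Polynomial R), (∀ i, P i = Polynomial.X ^ d * Q i) ∧
      ∃ i, (Q i).coeff 0 ≠ 0 := by
  classical
  have h1 : ∃ n, ∃ i, (P i).coeff n ≠ 0 := by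
    by_contra hc
    push Not at hc
    apply hP
    ext i n
    exact hc n i
  have h2 : ∀ i, Polynomial.X ^ (Nat.find h1) ∣ P i := by
    intro i
    rw [Polynomial.X_pow_dvd_iff]
    intro m hm
    have := Nat.find_min h1 hm
    push Not at this
    exact this i
  choose Q hQ using h2
  refine ⟨Nat.find h1, Q, hQ, ?_⟩
  obtain ⟨i, hi⟩ := Nat.find_spec h1
  refine ⟨i, fun h => hi ?_⟩
  rw [hQ i]
  have := Polynomial.coeff_X_pow_mul (Q i) (Nat.find h1) 0
  rw [zero_add] at this
  rw [this, h]

theorem sum3 {R : Type} [CommRing R] (k : Fin 3) (F : Fin 3 → R) :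
    ∑ i, F i = F k + F (k + 1) + F (k + 2) := by
  fin_cases k
  · simp [Fin.sum_univ_three]
  · simp [Fin.sum_univ_three]
    show F 0 + F 1 + F 2 = F 1 + F 2 + F 0
    ring
  · simp [Fin.sum_univ_three]
    show F 0 + F 1 + F 2 = F 2 + F 0 + F 1
    ring

theorem fin3 : ∀ k : Fin 3, k + 1 ≠ k ∧ k + 2 ≠ k ∧ k + 2 ≠ k + 1 ∧
    ∀ i, i = k ∨ i = k + 1 ∨ i = k + 2 := by decide

theorem an (A : Matrix (Fin 3) (Fin 3) (MvPolynomial (Fin r) ℂ)) (hA : A.IsSymm)
    (η : Fin r → ℂ) (hne : ∃ i j, eval η (A i j) ≠ 0)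
    (hmin : ∀ i j k l : Fin 3,
      eval η (A i k) * eval η (A j l) = eval η (A i l) * eval η (A j k))
    (hgrad : ∀ u : Fin 3 → ℂ, u ≠ 0 → (∀ i, ∑ j, eval η (A i j) * u j = 0) →
      ∃ l : Fin r, eval η (pderiv l (∑ i, ∑ j, C (u i) * A i j * C (u j))) ≠ 0)
    (V : Fin 3 → MvPolynomial (Fin r) ℂ) (hV : ∑ i, ∑ j, V i * A i j * V j = 0) : V = 0 := by
  obtain ⟨i0, j0, h0⟩ := hne
  by_contra hVne
  have hs : ∀ i j, A i j = A j i := fun i j => hA.apply j i
  let a : Fin 3 → Fin 3 → ℂ := fun i j => eval η (A i j)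
  let b : Fin r → Fin 3 → Fin 3 → ℂ := fun l i j => eval η (pderiv l (A i j))
  have has : ∀ i j, a i j = a j i := fun i j => congrArg (eval η) (hs i j)
  have hbs : ∀ l i j, b l i j = b l j i := fun l i j =>
    congrArg (fun P => eval η (pderiv l P)) (hs i j)
  obtain ⟨k, hk⟩ : ∃ k, a k k ≠ 0 := by
    by_contra hc
    push Not at hc
    have h1 : a i0 i0 * a j0 j0 = a i0 j0 * a j0 i0 := hmin i0 j0 i0 j0
    rw [hc i0, zero_mul, has j0 i0] at h1
    exact h0 (mul_self_eq_zero.1 h1.symm)
  have hr : ∀ i j, a k k * a i j = a k i * a k j := by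
    intro i j
    have h1 : a k k * a i j = a k j * a i k := hmin k i k j
    rw [h1, has i k]
    ring
  -- expansion
  obtain ⟨d, Q, hQ, i1, hi1⟩ := extract (fun i => phi η (V i)) (by
    intro h
    apply hVne
    ext1 i
    exact phi_inj η (congrFun h i))
  have hsum : ∑ i, ∑ j, Q i * phi η (A i j) * Q j = 0 := by
    have h1 : ∑ i, ∑ j, phi η (V i) * phi η (A i j) * phi η (V j) = 0 := by
      have := congrArg (phi η) hV
      simp only [map_sum, map_mul, map_zero] at this
      exact this
    have h2 : (Polynomial.X ^ d * Polynomial.X ^ d : Polynomial (MvPolynomial (Fin r) ℂ)) *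
        ∑ i, ∑ j, Q i * phi η (A i j) * Q j = 0 := by
      rw [← h1, Finset.mul_sum]
      refine Finset.sum_congr rfl fun i _ => ?_
      rw [Finset.mul_sum]
      refine Finset.sum_congr rfl fun j _ => ?_
      rw [hQ i, hQ j]
      ring
    rcases mul_eq_zero.1 h2 with h3 | h3
    · exact absurd h3 (mul_ne_zero (pow_ne_zero _ Polynomial.X_ne_zero)
        (pow_ne_zero _ Polynomial.X_ne_zero))
    · exact h3
  let v : Fin 3 → MvPolynomial (Fin r) ℂ := fun i => (Q i).coeff 0
  let v' : Fin 3 → MvPolynomial (Fin r) ℂ := fun i => (Q i).coeff 1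
  let B : Fin 3 → Fin 3 → MvPolynomial (Fin r) ℂ := fun i j => LL fun l => b l i j
  have hBs : ∀ i j, B i j = B j i := fun i j => by
    show LL _ = LL _
    congr 1
    ext l
    exact hbs l i j
  have hc0 : ∑ i, ∑ j, v i * C (a i j) * v j = 0 := by
    have h1 := congrArg (fun P => Polynomial.coeff P 0) hsum
    simp only [Polynomial.finsetSum_coeff, Polynomial.mul_coeff_zero, coeff0,
      Polynomial.coeff_zero] at h1
    exact h1
  have hc1 : ∑ i, ∑ j, (v i * C (a i j) * v' j + (v i * B i j + v' i * C (a i j)) * v j) = 0 := by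
    have h1 := congrArg (fun P => Polynomial.coeff P 1) hsum
    simp only [Polynomial.finsetSum_coeff, Polynomial.mul_coeff_one, Polynomial.mul_coeff_zero,
      coeff0, coeff1, Polynomial.coeff_zero] at h1
    exact h1
  -- r · v = 0
  have hrv : ∑ j, C (a k j) * v j = 0 := by
    have h1 : (∑ j, C (a k j) * v j) ^ 2 = C (a k k) * ∑ i, ∑ j, v i * C (a i j) * v j := by
      rw [pow_two, Finset.sum_mul_sum, Finset.mul_sum]
      refine Finset.sum_congr rfl fun i _ => ?_
      rw [Finset.mul_sum]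
      refine Finset.sum_congr rfl fun j _ => ?_
      have := congrArg (C : ℂ → MvPolynomial (Fin r) ℂ) (hr i j)
      rw [C_mul, C_mul] at this
      linear_combination (-(v i * v j)) * this
    rw [hc0, mul_zero] at h1
    exact (pow_eq_zero_iff two_ne_zero).1 h1
  have hkC : (C (a k k) : MvPolynomial (Fin r) ℂ) ≠ 0 := by
    rw [Ne, MvPolynomial.C_eq_zero]
    exact hk
  have hav : ∀ i, ∑ j, C (a i j) * v j = 0 := by
    intro i
    have h1 : C (a k k) * ∑ j, C (a i j) * v j = C (a k i) * ∑ j, C (a k j) * v j := by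
      rw [Finset.mul_sum, Finset.mul_sum]
      refine Finset.sum_congr rfl fun j _ => ?_
      have := congrArg (C : ℂ → MvPolynomial (Fin r) ℂ) (hr i j)
      rw [C_mul, C_mul] at this
      linear_combination (v j) * this
    rw [hrv, mul_zero] at h1
    rcases mul_eq_zero.1 h1 with h2 | h2
    · exact absurd h2 hkC
    · exact h2
  have hB : ∑ i, ∑ j, v i * B i j * v j = 0 := by
    have e1 : ∑ i, ∑ j, v i * C (a i j) * v' j = 0 := by
      rw [Finset.sum_comm]
      refine Finset.sum_eq_zero fun j _ => ?_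
      have : ∑ i, v i * C (a i j) * v' j = v' j * ∑ i, C (a j i) * v i := by
        rw [Finset.mul_sum]
        refine Finset.sum_congr rfl fun i _ => ?_
        rw [has i j]
        ring
      rw [this, hav j, mul_zero]
    have e2 : ∑ i, ∑ j, v' i * C (a i j) * v j = 0 := by
      refine Finset.sum_eq_zero fun i _ => ?_
      have : ∑ j, v' i * C (a i j) * v j = v' i * ∑ j, C (a i j) * v j := by
        rw [Finset.mul_sum]
        exact Finset.sum_congr rfl fun j _ => by ring
      rw [this, hav i, mul_zero]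
    have e3 : ∑ i, ∑ j, (v i * C (a i j) * v' j + (v i * B i j + v' i * C (a i j)) * v j) =
        ∑ i, ∑ j, v i * C (a i j) * v' j + ∑ i, ∑ j, v i * B i j * v j +
          ∑ i, ∑ j, v' i * C (a i j) * v j := by
      rw [← Finset.sum_add_distrib, ← Finset.sum_add_distrib]
      refine Finset.sum_congr rfl fun i _ => ?_
      rw [← Finset.sum_add_distrib, ← Finset.sum_add_distrib]
      exact Finset.sum_congr rfl fun j _ => by ring
    rw [e3, e1, e2, zero_add, add_zero] at hc1
    exact hc1
  -- coordinates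
  set s : ℂ := -(a k (k + 1)) / a k k with hsdef
  set t : ℂ := -(a k (k + 2)) / a k k with htdef
  have hsk : a k k * s = - a k (k + 1) := by rw [hsdef]; field_simp
  have htk : a k k * t = - a k (k + 2) := by rw [htdef]; field_simp
  have hvk : v k = C s * v (k + 1) + C t * v (k + 2) := by
    have h1 := hrv
    rw [sum3 k] at h1
    have h2 := congrArg (C : ℂ → MvPolynomial (Fin r) ℂ) hsk
    have h3 := congrArg (C : ℂ → MvPolynomial (Fin r) ℂ) htk
    rw [C_mul, C_neg] at h2 h3
    have h4 : C (a k k) * (v k - (C s * v (k + 1) + C t * v (k + 2))) = 0 := by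
      linear_combination h1 - v (k + 1) * h2 - v (k + 2) * h3
    rcases mul_eq_zero.1 h4 with h5 | h5
    · exact absurd h5 hkC
    · exact sub_eq_zero.1 h5
  let f : Fin r → ℂ := fun l => s ^ 2 * b l k k + 2 * s * b l k (k + 1) + b l (k + 1) (k + 1)
  let g : Fin r → ℂ := fun l => s * t * b l k k + s * b l k (k + 2) + t * b l k (k + 1) +
    b l (k + 1) (k + 2)
  let h : Fin r → ℂ := fun l => t ^ 2 * b l k k + 2 * t * b l k (k + 2) + b l (k + 2) (k + 2)
  have hLf : LL f = C s ^ 2 * B k k + 2 * C s * B k (k + 1) + B (k + 1) (k + 1) := by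
    show LL (fun l => s ^ 2 * b l k k + 2 * s * b l k (k + 1) + b l (k + 1) (k + 1)) =
      C s ^ 2 * LL (fun l => b l k k) + 2 * C s * LL (fun l => b l k (k + 1)) +
        LL (fun l => b l (k + 1) (k + 1))
    simp only [LL_add, LL_smul, C_mul, C_pow]
    have : (C 2 : MvPolynomial (Fin r) ℂ) = 2 := map_ofNat C 2
    rw [this]
  have hLg : LL g = C s * C t * B k k + C s * B k (k + 2) + C t * B k (k + 1) +
      B (k + 1) (k + 2) := by
    show LL (fun l => s * t * b l k k + s * b l k (k + 2) + t * b l k (k + 1) +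
      b l (k + 1) (k + 2)) = C s * C t * LL (fun l => b l k k) + C s * LL (fun l => b l k (k + 2)) +
        C t * LL (fun l => b l k (k + 1)) + LL (fun l => b l (k + 1) (k + 2))
    simp only [LL_add, LL_smul, C_mul]
  have hLh : LL h = C t ^ 2 * B k k + 2 * C t * B k (k + 2) + B (k + 2) (k + 2) := by
    show LL (fun l => t ^ 2 * b l k k + 2 * t * b l k (k + 2) + b l (k + 2) (k + 2)) =
      C t ^ 2 * LL (fun l => b l k k) + 2 * C t * LL (fun l => b l k (k + 2)) +
        LL (fun l => b l (k + 2) (k + 2))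
    simp only [LL_add, LL_smul, C_mul, C_pow]
    have : (C 2 : MvPolynomial (Fin r) ℂ) = 2 := map_ofNat C 2
    rw [this]
  have hquad : LL f * v (k + 1) ^ 2 + 2 * LL g * v (k + 1) * v (k + 2) +
      LL h * v (k + 2) ^ 2 = 0 := by
    have h1 := hB
    rw [sum3 k] at h1
    rw [sum3 k, sum3 k, sum3 k, hBs (k + 1) k, hBs (k + 2) k, hBs (k + 2) (k + 1), hvk] at h1
    rw [hLf, hLg, hLh]
    linear_combination h1
  have hk1 : k + 1 ≠ k := (fin3 k).1
  have hk2 : k + 2 ≠ k := (fin3 k).2.1
  have hk3 : k + 2 ≠ k + 1 := (fin3 k).2.2.1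
  have hH : ∀ x y : ℂ, (∀ l, x ^ 2 * f l + 2 * x * y * g l + y ^ 2 * h l = 0) →
      x = 0 ∧ y = 0 := by
    intro x y hxy
    by_contra hne
    let u : Fin 3 → ℂ := fun i => if i = k then s * x + t * y else if i = k + 1 then x else y
    have u0 : u k = s * x + t * y := if_pos rfl
    have u1 : u (k + 1) = x := by
      show (if k + 1 = k then _ else if k + 1 = k + 1 then x else y) = x
      rw [if_neg hk1, if_pos rfl]
    have u2 : u (k + 2) = y := by
      show (if k + 2 = k then _ else if k + 2 = k + 1 then x else y) = y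
      rw [if_neg hk2, if_neg hk3]
    have hu : u ≠ 0 := by
      intro h'
      apply hne
      rw [← u1, ← u2, h']
      exact ⟨rfl, rfl⟩
    have hru : ∑ j, a k j * u j = 0 := by
      rw [sum3 k, u0, u1, u2]
      linear_combination x * hsk + y * htk
    have hAu : ∀ i, ∑ j, eval η (A i j) * u j = 0 := by
      intro i
      have h1 : a k k * ∑ j, a i j * u j = a k i * ∑ j, a k j * u j := by
        rw [Finset.mul_sum, Finset.mul_sum]
        exact Finset.sum_congr rfl fun j _ => by linear_combination (u j) * hr i j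
      rw [hru, mul_zero] at h1
      exact (mul_eq_zero.1 h1).resolve_left hk
    obtain ⟨l, hl⟩ := hgrad u hu hAu
    apply hl
    have e1 : eval η (pderiv l (∑ i, ∑ j, C (u i) * A i j * C (u j))) =
        ∑ i, ∑ j, u i * b l i j * u j := by
      rw [map_sum, map_sum]
      refine Finset.sum_congr rfl fun i _ => ?_
      rw [map_sum, map_sum]
      refine Finset.sum_congr rfl fun j _ => ?_
      rw [Derivation.leibniz, Derivation.leibniz, pderiv_C, pderiv_C]
      simp only [smul_eq_mul, mul_zero, zero_add, add_zero, map_mul, eval_C]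
      show u j * (u i * eval η (pderiv l (A i j))) = u i * eval η (pderiv l (A i j)) * u j
      ring
    rw [e1, sum3 k, sum3 k, sum3 k, sum3 k, u0, u1, u2, hbs l (k + 1) k, hbs l (k + 2) k,
      hbs l (k + 2) (k + 1), ← hxy l]
    show _ = x ^ 2 * (s ^ 2 * b l k k + 2 * s * b l k (k + 1) + b l (k + 1) (k + 1)) +
      2 * x * y * (s * t * b l k k + s * b l k (k + 2) + t * b l k (k + 1) +
        b l (k + 1) (k + 2)) +
      y ^ 2 * (t ^ 2 * b l k k + 2 * t * b l k (k + 2) + b l (k + 2) (k + 2))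
    ring
  obtain ⟨hp, hq⟩ := core f g h hH (v (k + 1)) (v (k + 2)) hquad
  have hvk0 : v k = 0 := by rw [hvk, hp, hq, mul_zero, mul_zero, add_zero]
  apply hi1
  rcases (fin3 k).2.2.2 i1 with h1 | h1 | h1
  · rw [h1]; exact hvk0
  · rw [h1]; exact hp
  · rw [h1]; exact hq

end

end Pool.Agent.Y363.LI
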