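import Mathlib

/-!
# The symmetric trilinear form of a cubic form
-/

set_option autoImplicit false

namespace Pool.Agent.Y363.LI

open MvPolynomial

noncomputable section

section tri

variable {r : ℕ} {R S : Type} [CommRing R] [Algebra ℂ R] [CommRing S] [Algebra ℂ S]

/-- the trilinear form with coefficients `T` -/
def Bf (T : Fin r → Fin r → Fin r → ℂ) (x y z : Fin r → R) : R :=
  ∑ i, ∑ j, ∑ k, algebraMap ℂ R (T i j k) * x i * y j * z k

/-- symmetric coefficients -/
def Sy (T : Fin r → Fin r → Fin r → ℂ) : Prop :=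
  ∀ i j k, T i j k = T j i k ∧ T i j k = T i k j

variable {T : Fin r → Fin r → Fin r → ℂ}

theorem Bf_12 (h : Sy T) (x y z : Fin r → R) : Bf T x y z = Bf T y x z := by
  unfold Bf
  rw [Finset.sum_comm]
  refine Finset.sum_congr rfl fun i _ => Finset.sum_congr rfl fun j _ =>
    Finset.sum_congr rfl fun k _ => ?_
  rw [(h i j k).1]
  ring

theorem Bf_23 (h : Sy T) (x y z : Fin r → R) : Bf T x y z = Bf T x z y := by
  unfold Bf
  refine Finset.sum_congr rfl fun i _ => ?_
  rw [Finset.sum_comm]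
  refine Finset.sum_congr rfl fun j _ => Finset.sum_congr rfl fun k _ => ?_
  rw [(h i j k).2]
  ring

theorem Bf_add1 (x x' y z : Fin r → R) : Bf T (x + x') y z = Bf T x y z + Bf T x' y z := by
  simp only [Bf, Pi.add_apply, mul_add, add_mul, Finset.sum_add_distrib]

theorem Bf_add2 (x y y' z : Fin r → R) : Bf T x (y + y') z = Bf T x y z + Bf T x y' z := by
  simp only [Bf, Pi.add_apply, mul_add, add_mul, Finset.sum_add_distrib]

theorem Bf_add3 (x y z z' : Fin r → R) : Bf T x y (z + z') = Bf T x y z + Bf T x y z' := by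
  simp only [Bf, Pi.add_apply, mul_add, Finset.sum_add_distrib]

theorem Bf_smul1 (a : R) (x y z : Fin r → R) : Bf T (a • x) y z = a * Bf T x y z := by
  simp only [Bf, Pi.smul_apply, smul_eq_mul, Finset.mul_sum]
  refine Finset.sum_congr rfl fun i _ => Finset.sum_congr rfl fun j _ =>
    Finset.sum_congr rfl fun k _ => ?_
  ring

theorem Bf_smul2 (a : R) (x y z : Fin r → R) : Bf T x (a • y) z = a * Bf T x y z := by
  simp only [Bf, Pi.smul_apply, smul_eq_mul, Finset.mul_sum]
  refine Finset.sum_congr rfl fun i _ => Finset.sum_congr rfl fun j _ =>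
    Finset.sum_congr rfl fun k _ => ?_
  ring

theorem Bf_smul3 (a : R) (x y z : Fin r → R) : Bf T x y (a • z) = a * Bf T x y z := by
  simp only [Bf, Pi.smul_apply, smul_eq_mul, Finset.mul_sum]
  refine Finset.sum_congr rfl fun i _ => Finset.sum_congr rfl fun j _ =>
    Finset.sum_congr rfl fun k _ => ?_
  ring

theorem Bf_zero3 (x y : Fin r → R) : Bf T x y 0 = 0 := by
  simp [Bf]

theorem map_Bf (φ : R →ₐ[ℂ] S) (x y z : Fin r → R) :
    φ (Bf T x y z) = Bf T (fun i => φ (x i)) (fun i => φ (y i)) (fun i => φ (z i)) := by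
  simp only [Bf, map_sum, map_mul, AlgHom.commutes]

/-- the conic of the plane through `p`, `q`, `x` -/
def mA (T : Fin r → Fin r → Fin r → ℂ) (p q x : Fin r → R) : Matrix (Fin 3) (Fin 3) R :=
  !![3 * Bf T p p x, 3 * Bf T p q x, algebraMap ℂ R (3 / 2) * Bf T p x x;
     3 * Bf T p q x, 3 * Bf T q q x, algebraMap ℂ R (3 / 2) * Bf T q x x;
     algebraMap ℂ R (3 / 2) * Bf T p x x, algebraMap ℂ R (3 / 2) * Bf T q x x,
       Bf T x x x]

theorem mA_symm (p q x : Fin r → R) : (mA T p q x).IsSymm := by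
  apply Matrix.IsSymm.ext
  intro i j
  fin_cases i <;> fin_cases j <;> rfl

theorem map_mA (φ : R →ₐ[ℂ] S) (p q x : Fin r → R) (i j : Fin 3) :
    φ (mA T p q x i j) =
      mA T (fun i => φ (p i)) (fun i => φ (q i)) (fun i => φ (x i)) i j := by
  have h3 : φ 3 = 3 := map_ofNat φ 3
  fin_cases i <;> fin_cases j <;>
    simp [mA, map_Bf, map_mul, h3]

theorem mA_zero (p q : Fin r → R) (i j : Fin 3) : mA T p q 0 i j = 0 := by
  fin_cases i <;> fin_cases j <;> simp [mA, Bf_zero3]

theorem quad (h : Sy T) (p q x : Fin r → R) (v : Fin 3 → R) :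
    ∑ i, ∑ j, v i * mA T p q x i j * v j =
      3 * Bf T (v 0 • p + v 1 • q) (v 0 • p + v 1 • q) x +
        3 * v 2 * Bf T (v 0 • p + v 1 • q) x x + v 2 ^ 2 * Bf T x x x := by
  have h32 : (algebraMap ℂ R (3 / 2)) * 2 = 3 := by
    have : (2 : R) = algebraMap ℂ R 2 := (map_ofNat _ 2).symm
    rw [this, ← map_mul]
    norm_num
    exact map_ofNat _ 3
  have e1 := Bf_12 h q p x
  simp only [Fin.sum_univ_three, Bf_add1, Bf_add2, Bf_smul1, Bf_smul2]
  rw [e1]
  simp only [mA, Matrix.of_apply, Matrix.cons_val', Matrix.cons_val_zero, Matrix.cons_val_one,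
    Matrix.cons_val, Matrix.cons_val_fin_one]
  linear_combination (v 0 * v 2 * Bf T p x x + v 1 * v 2 * Bf T q x x) * h32

theorem cube (h : Sy T) (s x : Fin r → R) (c : R) :
    Bf T (s + c • x) (s + c • x) (s + c • x) =
      Bf T s s s + c * (3 * Bf T s s x + 3 * c * Bf T s x x + c ^ 2 * Bf T x x x) := by
  simp only [Bf_add1, Bf_add2, Bf_add3, Bf_smul1, Bf_smul2, Bf_smul3]
  rw [Bf_23 h s x s, Bf_12 h x s s, Bf_23 h s x s, Bf_12 h x s x, Bf_23 h x x s, Bf_12 h x s x]
  ring

theorem line_zero (h : Sy T) (p q : Fin r → R) (hp : Bf T p p p = 0) (hpq : Bf T p p q = 0)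
    (hqp : Bf T p q q = 0) (hq : Bf T q q q = 0) (a b : R) :
    Bf T (a • p + b • q) (a • p + b • q) (a • p + b • q) = 0 := by
  rw [cube h, Bf_smul1, Bf_smul2, Bf_smul3, Bf_smul1, Bf_smul2, Bf_smul1, hp, hpq, hqp, hq]
  ring

end tri

theorem pd_comm {r : ℕ} (i j : Fin r) (f : MvPolynomial (Fin r) ℂ) :
    pderiv i (pderiv j f) = pderiv j (pderiv i f) := by
  have h : ⁅pderiv (R := ℂ) i, pderiv (R := ℂ) j⁆ = (0 : Derivation ℂ _ _) := by
    apply MvPolynomial.derivation_ext
    intro k
    rw [Derivation.commutator_apply, pderiv_X, pderiv_X]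
    by_cases hi : i = k <;> by_cases hj : j = k <;>
      simp [hi, hj]
  have h2 := DFunLike.congr_fun h f
  rw [Derivation.commutator_apply, Derivation.zero_apply, sub_eq_zero] at h2
  exact h2

theorem exists_T {r : ℕ} (F : MvPolynomial (Fin r) ℂ) (hF : F.IsHomogeneous 3) :
    ∃ T : Fin r → Fin r → Fin r → ℂ, Sy T ∧ F = Bf T X X X ∧
      ∀ (w : Fin r → ℂ) (l : Fin r), eval w (pderiv l F) = 3 * Bf T w w (Pi.single l 1) := by
  classical
  let T : Fin r → Fin r → Fin r → ℂ := fun i j k =>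
    coeff 0 (pderiv k (pderiv j (pderiv i F))) / 6
  have hsy : Sy T := by
    intro i j k
    constructor
    · show coeff 0 (pderiv k (pderiv j (pderiv i F))) / 6 =
        coeff 0 (pderiv k (pderiv i (pderiv j F))) / 6
      rw [pd_comm j i F]
    · show coeff 0 (pderiv k (pderiv j (pderiv i F))) / 6 =
        coeff 0 (pderiv j (pderiv k (pderiv i F))) / 6
      rw [pd_comm k j (pderiv i F)]
  have h1 : ∀ i, (pderiv i F).IsHomogeneous 2 := fun i => hF.pderiv
  have h2 : ∀ i j, (pderiv j (pderiv i F)).IsHomogeneous 1 := fun i j => (h1 i).pderiv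
  have h3 : ∀ i j k, (pderiv k (pderiv j (pderiv i F))).IsHomogeneous 0 :=
    fun i j k => (h2 i j).pderiv
  have hT : ∀ i j k, pderiv k (pderiv j (pderiv i F)) = C (6 * T i j k) := by
    intro i j k
    have h4 := totalDegree_eq_zero_iff_eq_C.1 ((totalDegree_zero_iff_isHomogeneous _).2 (h3 i j k))
    rw [h4]
    congr 1
    show _ = 6 * (coeff 0 (pderiv k (pderiv j (pderiv i F))) / 6)
    rw [h4, coeff_C, if_pos rfl]
    ring
  have e2 : ∀ i j, pderiv j (pderiv i F) = ∑ k, X k * C (6 * T i j k) := by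
    intro i j
    have h4 := (h2 i j).sum_X_mul_pderiv
    rw [one_smul] at h4
    rw [← h4]
    exact Finset.sum_congr rfl fun k _ => by rw [hT]
  have e1 : ∀ i, (2 : MvPolynomial (Fin r) ℂ) * pderiv i F =
      ∑ j, X j * ∑ k, X k * C (6 * T i j k) := by
    intro i
    have h4 := (h1 i).sum_X_mul_pderiv
    rw [nsmul_eq_mul] at h4
    push_cast at h4
    rw [← h4]
    exact Finset.sum_congr rfl fun j _ => by rw [e2]
  have e0 : (6 : MvPolynomial (Fin r) ℂ) * F =
      ∑ i, X i * ∑ j, X j * ∑ k, X k * C (6 * T i j k) := by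
    have h4 := hF.sum_X_mul_pderiv
    rw [nsmul_eq_mul] at h4
    push_cast at h4
    calc (6 : MvPolynomial (Fin r) ℂ) * F = 2 * (3 * F) := by ring
      _ = ∑ i, X i * (2 * pderiv i F) := by
        rw [← h4, Finset.mul_sum]
        exact Finset.sum_congr rfl fun i _ => by ring
      _ = _ := Finset.sum_congr rfl fun i _ => by rw [e1]
  have h6 : (6 : MvPolynomial (Fin r) ℂ) = C 6 := (map_ofNat C 6).symm
  refine ⟨T, hsy, ?_, ?_⟩
  · have h7 : (6 : MvPolynomial (Fin r) ℂ) * F = 6 * Bf T X X X := by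
      rw [e0, Bf, Finset.mul_sum]
      refine Finset.sum_congr rfl fun i _ => ?_
      rw [Finset.mul_sum, Finset.mul_sum]
      refine Finset.sum_congr rfl fun j _ => ?_
      rw [Finset.mul_sum, Finset.mul_sum, Finset.mul_sum]
      refine Finset.sum_congr rfl fun k _ => ?_
      rw [C_mul, ← h6]
      show _ = 6 * (C (T i j k) * X i * X j * X k)
      ring
    have h8 : (6 : MvPolynomial (Fin r) ℂ) ≠ 0 := by
      rw [h6, Ne, C_eq_zero]
      norm_num
    exact mul_left_cancel₀ h8 h7
  · intro w l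
    have h9 := congrArg (eval w) (e1 l)
    simp only [map_mul, map_sum, eval_X, eval_C, map_ofNat] at h9
    have h10 : Bf T w w (Pi.single l 1) = ∑ j, ∑ k, T l j k * w j * w k := by
      rw [Bf_23 hsy, Bf_12 hsy]
      unfold Bf
      rw [Finset.sum_eq_single l]
      · refine Finset.sum_congr rfl fun j _ => Finset.sum_congr rfl fun k _ => ?_
        rw [Pi.single_eq_same]
        show T l j k * 1 * w j * w k = _
        rw [mul_one]
      · intro i _ hi
        refine Finset.sum_eq_zero fun j _ => Finset.sum_eq_zero fun k _ => ?_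
        rw [Pi.single_eq_of_ne hi]
        ring
      · intro h
        exact absurd (Finset.mem_univ l) h
    rw [h10]
    have h11 : (2 : ℂ) * eval w (pderiv l F) = 2 * (3 * ∑ j, ∑ k, T l j k * w j * w k) := by
      rw [h9, ← mul_assoc, Finset.mul_sum]
      refine Finset.sum_congr rfl fun j _ => ?_
      rw [Finset.mul_sum, Finset.mul_sum]
      refine Finset.sum_congr rfl fun k _ => ?_
      ring
    exact mul_left_cancel₀ two_ne_zero h11

end

end Pool.Agent.Y363.LI
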