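import Mathlib
import Pool.Agent.Y201.LI.Stm3
import Pool.Agent.Y46.C3.Eta
import Pool.Agent.Y363.LI.An
import Pool.Agent.Y363.LI.Tri

/-!
# The projection from a line which is contained in no plane has no section
-/

set_option autoImplicit false

namespace Pool.Agent.Y363.LI

open MvPolynomial

noncomputable section

/-- the derivative at a point -/
def dl {r : ℕ} (η : Fin r → ℂ) (l : Fin r) (P : MvPolynomial (Fin r) ℂ) : ℂ :=
  eval η (pderiv l P)

section dl

variable {r : ℕ} (η : Fin r → ℂ) (l : Fin r)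

theorem dl_add (P Q : MvPolynomial (Fin r) ℂ) : dl η l (P + Q) = dl η l P + dl η l Q := by
  simp only [dl, map_add]

theorem dl_sum {ι : Type} (s : Finset ι) (P : ι → MvPolynomial (Fin r) ℂ) :
    dl η l (∑ i ∈ s, P i) = ∑ i ∈ s, dl η l (P i) := by
  simp only [dl, map_sum]

theorem dl_mul (P Q : MvPolynomial (Fin r) ℂ) :
    dl η l (P * Q) = eval η P * dl η l Q + eval η Q * dl η l P := by
  simp only [dl, Derivation.leibniz, map_add, smul_eq_mul, map_mul]

theorem dl_C (a : ℂ) : dl η l (C a) = 0 := by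
  simp only [dl, pderiv_C, map_zero]

theorem dl_X (k : Fin r) : dl η l (X k) = (Pi.single l (1 : ℂ) : Fin r → ℂ) k := by
  simp only [dl, pderiv_X]
  by_cases h : k = l
  · subst h
    simp
  · rw [Pi.single_eq_of_ne h, Pi.single_eq_of_ne h, map_zero]

theorem dl_Bf (T : Fin r → Fin r → Fin r → ℂ) (x y z : Fin r → MvPolynomial (Fin r) ℂ) :
    dl η l (Bf T x y z) =
      Bf T (fun i => dl η l (x i)) (fun i => eval η (y i)) (fun i => eval η (z i)) +
      Bf T (fun i => eval η (x i)) (fun i => dl η l (y i)) (fun i => eval η (z i)) +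
      Bf T (fun i => eval η (x i)) (fun i => eval η (y i)) (fun i => dl η l (z i)) := by
  simp only [Bf, dl_sum, ← Finset.sum_add_distrib]
  refine Finset.sum_congr rfl fun i _ => Finset.sum_congr rfl fun j _ =>
    Finset.sum_congr rfl fun k _ => ?_
  show dl η l (C (T i j k) * x i * y j * z k) = T i j k * dl η l (x i) * eval η (y j) *
    eval η (z k) + T i j k * eval η (x i) * dl η l (y j) * eval η (z k) +
    T i j k * eval η (x i) * eval η (y j) * dl η l (z k)
  rw [dl_mul, dl_mul, dl_mul, dl_C, map_mul, map_mul, eval_C]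
  ring

theorem dl_quad {T : Fin r → Fin r → Fin r → ℂ} (h : Sy T) (p q : Fin r → ℂ) (u : Fin 3 → ℂ) :
    dl η l (∑ i, ∑ j, C (u i) * mA T (fun i => C (p i)) (fun i => C (q i)) X i j * C (u j)) =
      3 * Bf T ((u 0 • p + u 1 • q) + u 2 • η) ((u 0 • p + u 1 • q) + u 2 • η)
        (Pi.single l 1) := by
  rw [quad h (fun i => C (p i)) (fun i => C (q i)) X (fun i => C (u i))]
  set s := u 0 • p + u 1 • q with hs
  have e1 : (C (u 0) • (fun i => C (p i)) + C (u 1) • (fun i => C (q i)) :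
      Fin r → MvPolynomial (Fin r) ℂ) = fun i => C (s i) := by
    ext1 i
    simp only [hs, Pi.add_apply, Pi.smul_apply, smul_eq_mul, C_add, C_mul]
  rw [e1]
  have h3 : (3 : MvPolynomial (Fin r) ℂ) = C 3 := (map_ofNat C 3).symm
  have z1 : (fun i => dl η l (C (s i))) = (0 : Fin r → ℂ) := by
    ext1 i
    exact dl_C η l _
  have z2 : (fun i => eval η (C (s i))) = s := by
    ext1 i
    exact eval_C _
  have z3 : (fun i => eval η (X i)) = η := by
    ext1 i
    exact eval_X _
  have z4 : (fun i => dl η l (X i)) = (Pi.single l (1 : ℂ) : Fin r → ℂ) := by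
    ext1 i
    exact dl_X η l i
  have z5 : ∀ x y : Fin r → ℂ, Bf T 0 x y = 0 := fun x y => by simp [Bf]
  have z6 : ∀ x y : Fin r → ℂ, Bf T x 0 y = 0 := fun x y => by simp [Bf]
  rw [h3, ← C_mul, ← C_pow, dl_add, dl_add, dl_mul, dl_mul, dl_mul, dl_C, dl_C, dl_C, dl_Bf,
    dl_Bf, dl_Bf, z1, z2, z3, z4, eval_C, eval_C, eval_C]
  simp only [Bf_add1, Bf_add2, Bf_smul1, Bf_smul2, z5, z6]
  rw [Bf_23 h s (Pi.single l 1) η, Bf_12 h η s (Pi.single l 1), Bf_12 h (Pi.single l 1) η η,
    Bf_23 h η (Pi.single l 1) η]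
  ring

end dl

theorem noln : Pool.Agent.Y201.LI.S_NOLN := by
  intro r F hF hr hsm p hp hline hplane ⟨V, W, hW, hVW⟩
  obtain ⟨T, hT, hFT, hder⟩ := exists_T F hF
  -- values of `F`
  have hev : ∀ (R : Type) [CommRing R] [Algebra ℂ R] (x : Fin r → R),
      aeval x F = Bf T x x x := by
    intro R _ _ x
    conv_lhs => rw [hFT]
    rw [map_Bf]
    simp only [aeval_X]
  have hevC : ∀ x : Fin r → ℂ, eval x F = Bf T x x x := by
    intro x
    rw [← hev ℂ x]
    exact (MvPolynomial.coe_aeval_eq_eval x ▸ rfl)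
  -- the line
  have hl : ∀ a b : ℂ, Bf T (a • p 0 + b • p 1) (a • p 0 + b • p 1) (a • p 0 + b • p 1) = 0 := by
    intro a b
    rw [← hevC]
    have := hline ![a, b]
    rwa [Fin.sum_univ_two] at this
  have hl0 : Bf T (p 0) (p 0) (p 0) = 0 := by
    have := hl 1 0
    rwa [one_smul, zero_smul, add_zero] at this
  have hl1 : Bf T (p 1) (p 1) (p 1) = 0 := by
    have := hl 0 1
    rwa [one_smul, zero_smul, zero_add] at this
  have hpm : ∀ b : ℂ, b * (3 * Bf T (p 0) (p 0) (p 1) + 3 * b * Bf T (p 0) (p 1) (p 1)) = 0 := by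
    intro b
    have := hl 1 b
    rw [one_smul, cube hT, hl0, hl1] at this
    linear_combination this
  have hl01 : Bf T (p 0) (p 0) (p 1) = 0 := by
    have h1 := hpm 1
    have h2 := hpm (-1)
    linear_combination (1 / 6 : ℂ) * h1 - (1 / 6 : ℂ) * h2
  have hl11 : Bf T (p 0) (p 1) (p 1) = 0 := by
    have h1 := hpm 1
    have h2 := hpm (-1)
    linear_combination (1 / 6 : ℂ) * h1 + (1 / 6 : ℂ) * h2
  set P : Fin r → MvPolynomial (Fin r) ℂ := fun i => C (p 0 i) with hP
  set Q : Fin r → MvPolynomial (Fin r) ℂ := fun i => C (p 1 i) with hQ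
  have hCB : ∀ x y z : Fin r → ℂ, Bf T (fun i => C (x i)) (fun i => C (y i)) (fun i => C (z i)) =
      (C (Bf T x y z) : MvPolynomial (Fin r) ℂ) := by
    intro x y z
    exact (map_Bf (Algebra.ofId ℂ (MvPolynomial (Fin r) ℂ)) x y z).symm
  -- the matrix
  let A : Matrix (Fin 3) (Fin 3) (MvPolynomial (Fin r) ℂ) := mA T P Q X
  have hA : A.IsSymm := mA_symm P Q X
  have hAev : ∀ (x : Fin r → ℂ) (i j : Fin 3), eval x (A i j) = mA T (p 0) (p 1) x i j := by
    intro x i j
    have h1 := map_mA (T := T) (aeval x : MvPolynomial (Fin r) ℂ →ₐ[ℂ] ℂ) P Q X i j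
    have h2 : (aeval x : MvPolynomial (Fin r) ℂ →ₐ[ℂ] ℂ) (A i j) = eval x (A i j) :=
      (MvPolynomial.coe_aeval_eq_eval x ▸ rfl)
    rw [← h2]
    refine h1.trans ?_
    simp only [hP, hQ, aeval_X, aeval_C, Algebra.algebraMap_self, RingHom.id_apply]
  -- the section
  have hsec : ∑ i, ∑ j, ![V 0, V 1, W] i * A i j * ![V 0, V 1, W] j = 0 := by
    have h1 : Bf T ((V 0 • P + V 1 • Q) + W • X) ((V 0 • P + V 1 • Q) + W • X)
        ((V 0 • P + V 1 • Q) + W • X) = 0 := by
      rw [← hev, ← hVW]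
      congr 2
      ext1 i
      rw [Fin.sum_univ_two]
      simp only [Pi.add_apply, Pi.smul_apply, smul_eq_mul, hP, hQ]
      ring
    rw [cube hT, line_zero hT P Q (by rw [hP, hCB, hl0, C_0]) (by rw [hP, hQ, hCB, hl01, C_0])
      (by rw [hP, hQ, hCB, hl11, C_0]) (by rw [hQ, hCB, hl1, C_0]), zero_add] at h1
    rw [quad hT P Q X ![V 0, V 1, W]]
    exact (mul_eq_zero.1 h1).resolve_left hW
  -- four more directions
  obtain ⟨u, hu⟩ : ∃ u : Fin 4 → Fin r → ℂ, ∀ y : Fin 4 → ℂ,
      ∑ i, y i • u i ∈ Submodule.span ℂ (Set.range p) → y = 0 := by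
    set N := Submodule.span ℂ (Set.range p) with hN
    have h1 : Module.finrank ℂ N = 2 := by
      rw [hN, finrank_span_eq_card hp, Fintype.card_fin]
    have h2 : Module.finrank ℂ ((Fin r → ℂ) ⧸ N) + Module.finrank ℂ N = r := by
      rw [Submodule.finrank_quotient_add_finrank, Module.finrank_fin_fun]
    have h3 : 4 ≤ Module.finrank ℂ ((Fin r → ℂ) ⧸ N) := by omega
    obtain ⟨w, hw⟩ := exists_linearIndependent_of_le_finrank h3
    choose u hu using fun i => N.mkQ_surjective (w i)
    refine ⟨u, fun y hy => ?_⟩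
    have h4 : ∑ i, y i • w i = 0 := by
      have h5 : N.mkQ (∑ i, y i • u i) = 0 := by
        rw [Submodule.mkQ_apply, Submodule.Quotient.mk_eq_zero]
        exact hy
      rw [map_sum] at h5
      rw [← h5]
      exact Finset.sum_congr rfl fun i _ => by rw [map_smul, hu]
    ext i
    exact (Fintype.linearIndependent_iff.1 hw) y h4 i
  -- the point
  let ψ : MvPolynomial (Fin r) ℂ →ₐ[ℂ] MvPolynomial (Fin 4) ℂ :=
    aeval fun j => ∑ i, C (u i j) * X i
  have hψ : ∀ (y : Fin 4 → ℂ) (G : MvPolynomial (Fin r) ℂ),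
      eval y (ψ G) = eval (∑ i, y i • u i) G := by
    intro y G
    induction G using MvPolynomial.induction_on with
    | C a =>
      show eval y (aeval _ (C a)) = _
      rw [aeval_C, eval_C]
      exact eval_C a
    | add f g hf hg => rw [map_add, map_add, map_add, hf, hg]
    | mul_X f j hf =>
      rw [map_mul, map_mul, map_mul, hf, eval_X]
      congr 1
      show eval y (aeval _ (X j)) = _
      rw [aeval_X, map_sum, Finset.sum_apply]
      refine Finset.sum_congr rfl fun i _ => ?_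
      rw [map_mul, eval_C, eval_X, Pi.smul_apply, smul_eq_mul, mul_comm]
  let A' : Matrix (Fin 3) (Fin 3) (MvPolynomial (Fin 4) ℂ) := fun i j => ψ (A i j)
  have hA' : A'.IsSymm := by
    apply Matrix.IsSymm.ext
    intro i j
    show ψ (A j i) = ψ (A i j)
    rw [hA.apply]
  obtain ⟨y, hy0, hmin⟩ := Pool.Agent.Y46.C3.eta A' hA' (by
    intro i j
    show eval 0 (ψ (A i j)) = 0
    rw [hψ]
    have : ∑ i, (0 : Fin 4 → ℂ) i • u i = 0 := by simp
    rw [this, hAev, mA_zero])
  set η : Fin r → ℂ := ∑ i, y i • u i with hη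
  have hηN : η ∉ Submodule.span ℂ (Set.range p) := fun h => hy0 (hu y h)
  have hmin' : ∀ i j k l : Fin 3,
      eval η (A i k) * eval η (A j l) = eval η (A i l) * eval η (A j k) := by
    intro i j k l
    have := hmin i j k l
    simp only [A', hψ] at this
    exact this
  -- nonzero
  have hne : ∃ i j, eval η (A i j) ≠ 0 := by
    by_contra hc
    push Not at hc
    obtain ⟨a, b, c, habc⟩ := hplane η hηN
    apply habc
    rw [hevC, cube hT, hl, zero_add]
    have h1 := quad hT (p 0) (p 1) η ![a, b, c]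
    have h2 : ∑ i, ∑ j, ![a, b, c] i * mA T (p 0) (p 1) η i j * ![a, b, c] j = 0 := by
      refine Finset.sum_eq_zero fun i _ => Finset.sum_eq_zero fun j _ => ?_
      rw [← hAev, hc]
      ring
    rw [h2] at h1
    have h3 : 3 * Bf T (a • p 0 + b • p 1) (a • p 0 + b • p 1) η +
      3 * c * Bf T (a • p 0 + b • p 1) η η + c ^ 2 * Bf T η η η = 0 := h1.symm
    rw [h3, mul_zero]
  -- the gradient
  have hgrad : ∀ v : Fin 3 → ℂ, v ≠ 0 → (∀ i, ∑ j, eval η (A i j) * v j = 0) →
      ∃ l : Fin r, eval η (pderiv l (∑ i, ∑ j, C (v i) * A i j * C (v j))) ≠ 0 := by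
    intro v hv _
    by_contra hc
    push Not at hc
    set w : Fin r → ℂ := (v 0 • p 0 + v 1 • p 1) + v 2 • η with hw
    have h1 : ∀ l, eval w (pderiv l F) = 0 := by
      intro l
      rw [hder, hw, ← dl_quad η l hT (p 0) (p 1) v]
      exact hc l
    have h2 : w = 0 := hsm w h1
    have h3 : v 2 = 0 := by
      by_contra h4
      apply hηN
      have h5 : η = -(v 2)⁻¹ • (v 0 • p 0 + v 1 • p 1) := by
        have h6 : v 2 • η = -(v 0 • p 0 + v 1 • p 1) := by
          rw [eq_neg_iff_add_eq_zero, add_comm]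
          exact h2
        calc η = (v 2)⁻¹ • (v 2 • η) := by rw [smul_smul, inv_mul_cancel₀ h4, one_smul]
          _ = _ := by rw [h6, smul_neg, neg_smul]
      rw [h5]
      refine Submodule.smul_mem _ _ (Submodule.add_mem _ (Submodule.smul_mem _ _ ?_)
        (Submodule.smul_mem _ _ ?_))
      · exact Submodule.subset_span ⟨0, rfl⟩
      · exact Submodule.subset_span ⟨1, rfl⟩
    have h4 : ∑ i : Fin 2, ![v 0, v 1] i • p i = 0 := by
      rw [Fin.sum_univ_two]
      rw [hw, h3, zero_smul, add_zero] at h2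
      exact h2
    have h5 := Fintype.linearIndependent_iff.1 hp ![v 0, v 1] h4
    apply hv
    ext i
    fin_cases i
    · exact h5 0
    · exact h5 1
    · exact h3
  have hfin := an A hA η hne hmin' hgrad ![V 0, V 1, W] hsec
  exact hW (congrFun hfin 2)

end

end Pool.Agent.Y363.LI
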